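import Mathlib.GroupTheory.SpecificGroups.ZGroup
import Mathlib.GroupTheory.Sylow
import Mathlib.Tactic

/-!
# OD Order (MP_bf82d2_ag, helper15): orders of small non-commutative groups of odd order

A group of order `1, 3, 5, 7, 9, 11, 13, 15, 17, 19, 23, 25` is commutative: prime, square of a prime, or
`15`, where all Sylow subgroups are normal.  In a group of order `21` two subgroups of order `3` are conjugate.
-/

set_option autoImplicit false

namespace Pool.Agent.H15.OD

private theorem comm_of_cyclic {G : Type} [Group G] (h : IsCyclic G) (a b : G) : a * b = b * a := by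
  obtain ⟨g, hg⟩ := h.exists_generator
  obtain ⟨k, hk⟩ := Subgroup.mem_zpowers_iff.1 (hg a)
  obtain ⟨l, hl⟩ := Subgroup.mem_zpowers_iff.1 (hg b)
  rw [← hk, ← hl, ← zpow_add, ← zpow_add, add_comm]

private theorem comm_prime {G : Type} [Group G] {p : ℕ} (hp : p.Prime) (h : Nat.card G = p)
    (a b : G) : a * b = b * a := by
  have : Fact p.Prime := ⟨hp⟩
  exact comm_of_cyclic (isCyclic_of_prime_card h) a b

private theorem comm_sq {G : Type} [Group G] {p : ℕ} (hp : p.Prime) (h : Nat.card G = p ^ 2)
    (a b : G) : a * b = b * a := by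
  have : Fact p.Prime := ⟨hp⟩
  have h1 := IsPGroup.isMulCommutative_of_card_eq_prime_sq h
  exact h1.is_comm.comm a b

private theorem comm_fifteen {G : Type} [Group G] [Finite G] (h : Nat.card G = 15)
    (a b : G) : a * b = b * a := by
  have hsq : Squarefree (Nat.card G) := by
    rw [h, show (15 : ℕ) = 3 * 5 from rfl, Nat.squarefree_mul (by norm_num)]
    exact ⟨Nat.prime_three.squarefree, Nat.prime_five.squarefree⟩
  have hZ : IsZGroup G := IsZGroup.of_squarefree hsq
  have hnorm : ∀ (p : ℕ) (_hp : Fact p.Prime) (P : Sylow p G), (↑P : Subgroup G).Normal := by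
    intro p hp P
    have hdvd : Nat.card P ∣ 15 := by
      rw [← h]
      exact Subgroup.card_subgroup_dvd_card _
    obtain ⟨k, hk⟩ := (IsPGroup.iff_card.1 P.isPGroup')
    rcases Nat.eq_zero_or_pos k with h0 | h0
    · have h1 : Nat.card P = 1 := by
        rw [hk, h0, pow_zero]
      have h2 : (P : Subgroup G) = ⊥ := Subgroup.card_eq_one.1 h1
      rw [h2]
      infer_instance
    · have h1 : p ∣ 15 := (dvd_pow_self p h0.ne').trans (hk ▸ hdvd)
      have h2 : p ≤ 15 := Nat.le_of_dvd (by norm_num) h1
      have hpp := hp.out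
      have hidx : (P : Subgroup G).index ∣ 15 := by
        rw [← h]
        exact Subgroup.index_dvd_card _
      have h3 : ¬ p ∣ (P : Subgroup G).index := P.not_dvd_index
      have h4 : Nat.card (Sylow p G) ∣ (P : Subgroup G).index := P.card_dvd_index
      have h5 := card_sylow_modEq_one p G
      have h6 : Nat.card (Sylow p G) = 1 := by
        have h7 : Nat.card (Sylow p G) ∣ 15 := h4.trans hidx
        have h8 : Nat.card (Sylow p G) ≤ 15 := Nat.le_of_dvd (by norm_num) h7
        have h9 : ¬ p ∣ Nat.card (Sylow p G) := fun h10 => h3 (h10.trans h4)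
        generalize Nat.card (Sylow p G) = n at h5 h7 h8 h9
        unfold Nat.ModEq at h5
        interval_cases p <;> first | (exfalso; revert h1; decide) | (exfalso; revert hpp; decide) |
          (interval_cases n <;> first | rfl | (exfalso; revert h7; decide) |
            (exfalso; revert h9; decide) | (exfalso; revert h5; decide))
      have h7 : Subsingleton (Sylow p G) := by
        have := (Nat.card_eq_one_iff_unique.1 h6).1
        exact this
      exact Sylow.normal_of_subsingleton P
  have hnil : Group.IsNilpotent G := (Group.isNilpotent_of_finite_tfae.out 0 3 rfl rfl).2 hnorm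
  exact comm_of_cyclic inferInstance a b

theorem order_cases {G : Type} [Group G] [Fintype G] (hodd : Odd (Nat.card G))
    (hna : ∃ a b : G, a * b ≠ b * a) :
    Nat.card G = 21 ∨ Nat.card G = 27 ∨ 28 ≤ Nat.card G := by
  obtain ⟨a, b, hab⟩ := hna
  by_contra hcon
  have h1 : Nat.card G ≠ 21 := fun h => hcon (Or.inl h)
  have h2 : Nat.card G ≠ 27 := fun h => hcon (Or.inr (Or.inl h))
  have h3 : Nat.card G < 28 := by
    by_contra h
    exact hcon (Or.inr (Or.inr (not_lt.1 h)))
  have h4 : 0 < Nat.card G := Nat.card_pos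
  obtain ⟨m, hm⟩ := hodd
  have h5 : m ≤ 13 := by omega
  have hkey : Nat.card G = 1 ∨ Nat.card G = 3 ∨ Nat.card G = 5 ∨ Nat.card G = 7 ∨
      Nat.card G = 9 ∨ Nat.card G = 11 ∨ Nat.card G = 13 ∨ Nat.card G = 15 ∨ Nat.card G = 17 ∨
      Nat.card G = 19 ∨ Nat.card G = 23 ∨ Nat.card G = 25 := by omega
  apply hab
  rcases hkey with h | h | h | h | h | h | h | h | h | h | h | h
  · have := (Nat.card_eq_one_iff_unique.1 h).1
    exact Subsingleton.elim _ _
  · exact comm_prime (by norm_num) h a b
  · exact comm_prime (by norm_num) h a b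
  · exact comm_prime (by norm_num) h a b
  · exact comm_sq (p := 3) (by norm_num) (by rw [h]; norm_num) a b
  · exact comm_prime (by norm_num) h a b
  · exact comm_prime (by norm_num) h a b
  · exact comm_fifteen h a b
  · exact comm_prime (by norm_num) h a b
  · exact comm_prime (by norm_num) h a b
  · exact comm_prime (by norm_num) h a b
  · exact comm_sq (p := 5) (by norm_num) (by rw [h]; norm_num) a b

theorem sylow_conj {G : Type} [Group G] [Fintype G] (hn : Nat.card G = 21) (a b : G)
    (ha : orderOf a = 3) (hb : orderOf b = 3) :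
    ∃ x : G, Subgroup.zpowers (x * a * x⁻¹) = Subgroup.zpowers b := by
  have hp : Fact (Nat.Prime 3) := ⟨by norm_num⟩
  have hfac : (Nat.card G).factorization 3 = 1 := by
    rw [hn]
    rw [show (21 : ℕ) = 3 * 7 from rfl, Nat.factorization_mul (by norm_num) (by norm_num),
      Finsupp.add_apply, Nat.Prime.factorization_self (by norm_num),
      Nat.factorization_eq_zero_of_not_dvd (by norm_num)]
  have hca : Nat.card (Subgroup.zpowers a) = 3 ^ (Nat.card G).factorization 3 := by
    rw [Nat.card_zpowers, ha, hfac, pow_one]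
  have hcb : Nat.card (Subgroup.zpowers b) = 3 ^ (Nat.card G).factorization 3 := by
    rw [Nat.card_zpowers, hb, hfac, pow_one]
  obtain ⟨x, hx⟩ := MulAction.exists_smul_eq G (Sylow.ofCard _ hca) (Sylow.ofCard _ hcb)
  refine ⟨x, ?_⟩
  have h1 := congrArg (fun P : Sylow 3 G => (P : Subgroup G)) hx
  simp only [Sylow.coe_subgroup_smul, Sylow.coe_ofCard] at h1
  rw [← h1]
  exact (MonoidHom.map_zpowers (MulAut.conj x).toMonoidHom a).symm

end Pool.Agent.H15.OD
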